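import Mathlib
import Pool.Agent.H326R2.SFour
import Pool.Agent.H326R2.TabFour

/-!
# `a ^ m + b ^ n = c ^ k` with `p ∣ m`, `2 s ∣ n`, `2 s ∣ k`: first case theorems

In the style of Sophie Germain.  Let `p ≥ 5` be a prime such that `2 p + 1` is a prime, and let `s`
be odd, not `0, 1` modulo `p` and not `0, 1, -1` modulo `2 p + 1`.  If `m` is a positive multiple of
`p` and `n`, `k` are multiples of `2 s`, then `a ^ m + b ^ n = c ^ k` has no solution in which `a` is
even, prime to `b` and prime to `s`.  The same is true for all primes `p ≠ s` from `5` to `97`, with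
the possible exceptions `(p, s) = (5, 71), (11, 89)`.
-/

namespace Pool.Agent.Results.MP_2738db_nt.FirstCaseEvenDifference

open Pool.Agent.H326R2

lemma key {p s t : ℕ} (hp : Odd p) (hp3 : 3 ≤ p) (hs : Odd s) (ht : t.Prime) (ht2 : t ≠ 2)
    (haux : Aux 4 p s t) {m n k : ℕ} (hm0 : 0 < m) (hm : p ∣ m) (hn : 2 * s ∣ n) (hk : 2 * s ∣ k)
    {a b c : ℕ} (ha : Even a) (hab : Nat.Coprime a b) (has : Nat.Coprime a s) :
    a ^ m + b ^ n ≠ c ^ k := by
  intro h
  obtain ⟨m', rfl⟩ := hm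
  obtain ⟨n', rfl⟩ := hn
  obtain ⟨k', rfl⟩ := hk
  have hm' : m' ≠ 0 := by
    rintro rfl
    simp at hm0
  refine main_four p s t hp hp3 hs ht ht2 haux ((a ^ m' : ℕ) : ℤ) ((b ^ n' : ℕ) : ℤ)
    ((c ^ k' : ℕ) : ℤ) ?_ (Nat.isCoprime_iff_coprime.2 (has.pow_left _))
    (Nat.isCoprime_iff_coprime.2 (hab.pow _ _)) ?_
  · rw [Int.even_coe_nat]
    exact ha.pow_of_ne_zero hm'
  · have h2 : (a ^ m') ^ p + ((b ^ n') ^ s) ^ 2 = ((c ^ k') ^ s) ^ 2 := by
      rw [← pow_mul, ← pow_mul, ← pow_mul, ← pow_mul, ← pow_mul,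
        show n' * (s * 2) = 2 * s * n' by ring, show k' * (s * 2) = 2 * s * k' by ring,
        show m' * p = p * m' by ring]
      exact h
    exact_mod_cast h2

/-- **First case theorems for `a ^ m + b ^ n = c ^ k` with `p ∣ m`, `2 s ∣ n`, `2 s ∣ k`.** -/
theorem result :
    (∀ p s m n k : ℕ, p.Prime → (2 * p + 1).Prime → 5 ≤ p → Odd s →
      s % p ≠ 0 → s % p ≠ 1 →
      s % (2 * p + 1) ≠ 0 → s % (2 * p + 1) ≠ 1 → s % (2 * p + 1) ≠ 2 * p →
      0 < m → p ∣ m → 2 * s ∣ n → 2 * s ∣ k →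
      ∀ a b c : ℕ, Even a → Nat.Coprime a b → Nat.Coprime a s → a ^ m + b ^ n ≠ c ^ k) ∧
    (∀ p s m n k : ℕ, p.Prime → s.Prime → 5 ≤ p → 5 ≤ s → p < 100 → s < 100 → p ≠ s →
      ¬ (p = 5 ∧ s = 71) → ¬ (p = 11 ∧ s = 89) →
      0 < m → p ∣ m → 2 * s ∣ n → 2 * s ∣ k →
      ∀ a b c : ℕ, Even a → Nat.Coprime a b → Nat.Coprime a s → a ^ m + b ^ n ≠ c ^ k) := by
  constructor
  · intro p s m n k hp ht hp5 hs h0 h1 k0 k1 k2 hm0 hm hn hk a b c ha hab has
    have hcast : ∀ (N q r : ℕ), r < N → q % N ≠ r → (q : ZMod N) ≠ (r : ZMod N) := by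
      intro N q r hr hq h
      rw [ZMod.natCast_eq_natCast_iff'] at h
      rw [Nat.mod_eq_of_lt hr] at h
      exact hq h
    have e0 : (s : ZMod p) ≠ 0 := by
      have := hcast p s 0 (by omega) h0
      simpa using this
    have e1 : (s : ZMod p) ≠ 1 := by
      have := hcast p s 1 (by omega) h1
      simpa using this
    have f0 : (s : ZMod (2 * p + 1)) ≠ 0 := by
      have := hcast (2 * p + 1) s 0 (by omega) k0
      simpa using this
    have f1 : (s : ZMod (2 * p + 1)) ≠ 1 := by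
      have := hcast (2 * p + 1) s 1 (by omega) k1
      simpa using this
    have f2 : (s : ZMod (2 * p + 1)) ≠ -1 := by
      have := hcast (2 * p + 1) s (2 * p) (by omega) k2
      intro h
      apply this
      rw [h]
      have h3 : ((2 * p + 1 : ℕ) : ZMod (2 * p + 1)) = 0 := ZMod.natCast_self _
      rw [Nat.cast_add, Nat.cast_one] at h3
      exact (eq_neg_of_add_eq_zero_left h3).symm
    have haux := aux_four p s hp hp5 ht hs e0 e1 f0 f1 f2
    exact key (hp.odd_of_ne_two (by omega)) (by omega) hs ht (by omega) haux hm0 hm hn hk ha hab has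
  · intro p s m n k hp hs hp5 hs5 hp100 hs100 hne x1 x2 hm0 hm hn hk a b c ha hab has
    have hexc : (p, s) ∉ [((5 : ℕ), (71 : ℕ)), (11, 89)] := by
      intro hmem
      simp only [List.mem_cons, Prod.mk.injEq, List.not_mem_nil, or_false] at hmem
      rcases hmem with h | h
      · exact x1 h
      · exact x2 h
    obtain ⟨t, P, ht, ht2, hp0, hP, hchk⟩ := tab_spec tabFour_ok tabFour_cov p s hp hs hp5 hs5
      hp100 hs100 hne hexc
    exact key (hp.odd_of_ne_two (by omega)) (by omega) (hs.odd_of_ne_two (by omega)) ht ht2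
      (aux_sound hp0 ht P hP hchk) hm0 hm hn hk ha hab has

end Pool.Agent.Results.MP_2738db_nt.FirstCaseEvenDifference
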