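import Mathlib
import Pool.Agent.H326R2.ULevel
import Pool.Agent.H213R3.TabG

/-!
# `a ^ m + b ^ n = c ^ k` with `2 p ∣ m`, `2 ∣ n`, `2 r ∣ k`: first case theorems

In the style of Sophie Germain.  Let `p ≥ 5` be a prime such that `P = 2 p + 1` is a prime, and let
`r` be odd, not `0, 1` modulo `p`, not `0, 1, -1` modulo `P`, and `5 ^ r ≢ 4 ^ (r - 1)` modulo `P`.
If `m` is a positive multiple of `2 p`, `n` is even and `k` is a multiple of `2 r`, then
`a ^ m + b ^ n = c ^ k` has no solution in which `a` is even, prime to `b` and prime to `r`.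
The same is true for all primes `p ≠ r` from `5` to `251` with the possible exception `(5, 241)`.
-/

namespace Pool.Agent.Results.MP_2738db_nt.FirstCaseEvenSquare

open Pool.Agent.H326R2

lemma key {p r t : ℕ} (hp : Odd p) (hr : Odd r) (ht : t.Prime) (ht2 : t ≠ 2)
    (haux : AuxG p r t) {m n k : ℕ} (hm0 : 0 < m) (hm : 2 * p ∣ m) (hn : 2 ∣ n) (hk : 2 * r ∣ k)
    {a b c : ℕ} (ha : Even a) (hab : Nat.Coprime a b) (har : Nat.Coprime a r) :
    a ^ m + b ^ n ≠ c ^ k := by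
  intro h
  obtain ⟨m', rfl⟩ := hm
  obtain ⟨n', rfl⟩ := hn
  obtain ⟨k', rfl⟩ := hk
  have hm' : m' ≠ 0 := by
    rintro rfl
    simp at hm0
  refine main_gauss p r t hp hr ht ht2 haux ((a ^ m' : ℕ) : ℤ) ((b ^ n' : ℕ) : ℤ)
    ((c ^ k' : ℕ) : ℤ) ?_ (Nat.isCoprime_iff_coprime.2 (har.pow_left _))
    (Nat.isCoprime_iff_coprime.2 (hab.pow _ _)) ?_
  · rw [Int.even_coe_nat]
    exact ha.pow_of_ne_zero hm'
  · have h2 : ((a ^ m') ^ p) ^ 2 + (b ^ n') ^ 2 = ((c ^ k') ^ r) ^ 2 := by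
      rw [← pow_mul, ← pow_mul, ← pow_mul, ← pow_mul, ← pow_mul,
        show m' * (p * 2) = 2 * p * m' by ring, show k' * (r * 2) = 2 * r * k' by ring,
        show n' * 2 = 2 * n' by ring]
      exact h
    exact_mod_cast h2

/-- **First case theorems for `a ^ m + b ^ n = c ^ k` with `2 p ∣ m`, `2 ∣ n`, `2 r ∣ k`.** -/
theorem result :
    (∀ p r m n k : ℕ, p.Prime → (2 * p + 1).Prime → 5 ≤ p → Odd r →
      r % p ≠ 0 → r % p ≠ 1 →
      r % (2 * p + 1) ≠ 0 → r % (2 * p + 1) ≠ 1 → r % (2 * p + 1) ≠ 2 * p →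
      5 ^ r % (2 * p + 1) ≠ 4 ^ (r - 1) % (2 * p + 1) →
      0 < m → 2 * p ∣ m → 2 ∣ n → 2 * r ∣ k →
      ∀ a b c : ℕ, Even a → Nat.Coprime a b → Nat.Coprime a r → a ^ m + b ^ n ≠ c ^ k) ∧
    (∀ p r m n k : ℕ, p.Prime → r.Prime → 5 ≤ p → 5 ≤ r → p < 256 → r < 256 → p ≠ r →
      ¬ (p = 5 ∧ r = 241) → 0 < m → 2 * p ∣ m → 2 ∣ n → 2 * r ∣ k →
      ∀ a b c : ℕ, Even a → Nat.Coprime a b → Nat.Coprime a r → a ^ m + b ^ n ≠ c ^ k) := by
  constructor
  · intro p r m n k hp ht hp5 hr h0 h1 k0 k1 k2 k3 hm0 hm hn hk a b c ha hab har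
    have hcast : ∀ (N q r : ℕ), r < N → q % N ≠ r → (q : ZMod N) ≠ (r : ZMod N) := by
      intro N q r hr hq h
      rw [ZMod.natCast_eq_natCast_iff'] at h
      rw [Nat.mod_eq_of_lt hr] at h
      exact hq h
    have e0 : (r : ZMod p) ≠ 0 := by
      have := hcast p r 0 (by omega) h0
      simpa using this
    have e1 : (r : ZMod p) ≠ 1 := by
      have := hcast p r 1 (by omega) h1
      simpa using this
    have f0 : (r : ZMod (2 * p + 1)) ≠ 0 := by
      have := hcast (2 * p + 1) r 0 (by omega) k0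
      simpa using this
    have f1 : (r : ZMod (2 * p + 1)) ≠ 1 := by
      have := hcast (2 * p + 1) r 1 (by omega) k1
      simpa using this
    have f2 : (r : ZMod (2 * p + 1)) ≠ -1 := by
      have := hcast (2 * p + 1) r (2 * p) (by omega) k2
      intro h
      apply this
      rw [h]
      have h3 : ((2 * p + 1 : ℕ) : ZMod (2 * p + 1)) = 0 := ZMod.natCast_self _
      rw [Nat.cast_add, Nat.cast_one] at h3
      exact (eq_neg_of_add_eq_zero_left h3).symm
    have f3 : (5 : ZMod (2 * p + 1)) ^ r ≠ 4 ^ (r - 1) := by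
      intro h
      apply k3
      rw [← ZMod.natCast_eq_natCast_iff']
      push_cast
      exact h
    have haux := auxG_sg p r hp hp5 ht hr e0 e1 f0 f1 f2 f3
    exact key (hp.odd_of_ne_two (by omega)) hr ht (by omega) haux hm0 hm hn hk ha hab har
  · intro p r m n k hp hr hp5 hr5 hp1 hr1 hne x1 hm0 hm hn hk a b c ha hab har
    have hexc : (p, r) ≠ (5, 241) := by
      intro h
      exact x1 (Prod.mk.inj h)
    obtain ⟨t, ht, ht2, haux⟩ := Pool.Agent.H213R3.TabG.exists_aux p r hp hr hp5 hr5 hp1 hr1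
      hne hexc
    exact key (hp.odd_of_ne_two (by omega)) (hr.odd_of_ne_two (by omega)) ht ht2 haux hm0 hm hn hk
      ha hab har

end Pool.Agent.Results.MP_2738db_nt.FirstCaseEvenSquare
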